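import Pool.Agent.Q138.QHyp

/-!
# Denominators of coefficients of a ratio of two `₂φ₁` series

`Q138.QHyp.R = ℤ[a, b, c, q]`, `Q138.QHyp.K` is its field of fractions `ℚ(a, b, c, q)`,
`Q138.QHyp.phi x y w` is the formal power series `₂φ₁(x, y; w; q, z)` in `z` over `K`.
-/

namespace Pool.Agent.Results.MP_89b4a2_co.DenominatorBound

open Q138.QHyp

/-- the coefficients `γ'_n` of `₂φ₁(aq, b; cq; q, z) / ₂φ₁(a, b; c; q, z)` -/
noncomputable def gamma' (n : ℕ) : K :=
  PowerSeries.coeff n (phi (a * q) b (c * q) * (phi a b c)⁻¹)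

/-- The answer to Q1 is positive. -/
theorem result : ∀ n : ℕ, ∃ P : R,
    (∏ k ∈ Finset.range (n + 1), (1 - c * q ^ k) ^ ((n + 1) / (k + 1))) * gamma' n =
      (1 - c) * algebraMap R K P := by
  intro n
  obtain ⟨P, hP⟩ := main2 n
  refine ⟨P, ?_⟩
  have h0 : (1 - c : K) ≠ 0 := by simpa using alg_pr_ne 0
  rw [← hP]
  unfold gamma'
  field_simp

end Pool.Agent.Results.MP_89b4a2_co.DenominatorBound
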